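import Pool.Agent.TH110.Zig.Law

/-!
# The law of the zigzags, uniformly in the slopes, and the law of the first passage points
-/

set_option autoImplicit false

open MeasureTheory Set Filter Topology

namespace Pool.Agent.N744.Zig

open Pool.Agent.TH110.Zig

variable {q : ℕ → ℝ} {L : ℝ → ℝ}

/-- One zigzag, uniformly in the slopes. -/
theorem one_step_u (hR : Reg q L) {δ : ℝ} (hδ0 : 0 < δ) (hδ1 : δ ≤ 1) {ε : ℝ}
    (hε : 0 < ε) :
    ∀ᶠ N : ℝ in atTop, ∀ a b : ℝ, 0 < a → a ≤ 1 - δ → 1 + δ ≤ b → ∀ A : Set ℝ, A ⊆ Icc 0 N →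
      MeasurableSet A →
      volume.real (Dom q (a / L N) (b / L N) A) ≤ a / b * volume.real A ∧
      a / b * volume.real A - ε * N ≤
        volume.real (Dom q (a / L N) (b / L N) A) := by
  set e₁ : ℝ := min (ε / 4) 1 with he₁
  have he₁0 : 0 < e₁ := by rw [he₁]; positivity
  have he₁ε : 4 * e₁ ≤ ε := by
    have := min_le_left (ε / 4) 1
    rw [← he₁] at this; linarith
  have he₁1 : e₁ ≤ 1 := min_le_right _ _
  filter_upwards [hR.win e₁ 1 (δ / 2) he₁0 (by positivity), hR.lpos, eventually_gt_atTop 0,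
    eventually_ge_atTop (q 0 / e₁)] with N hN hL hN0 hN2 a b ha haδ hbδ A hAN hA
  have hb1 : 1 < b := by linarith
  have ha1 : a < 1 := by linarith
  have hb : 0 < b := by linarith
  set ℓ := L N with hLdef
  have hM2 : q 0 ≤ e₁ * N := by
    rw [div_le_iff₀ he₁0] at hN2; linarith
  have hM0' : 0 < e₁ * N := by positivity
  have haL : 0 < a / ℓ := by positivity
  have hbL : 0 < b / ℓ := by positivity
  have hfin := real_ne_top hAN
  have hfinD := real_ne_top (Dom_subset (q := q) (a := a / ℓ) (b := b / ℓ) hAN)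
  -- the density
  have hlow : ∀ v, e₁ * N ≤ v → v ≤ N → a / ℓ * v < cr q v := by
    intro v h1 h2
    have h3 := (abs_le.mp (hN v h1 (by linarith))).1
    have h4 : 0 < v / ℓ := div_pos (by linarith) hL
    have e : a / ℓ * v = a * (v / ℓ) := by ring
    rw [e]
    nlinarith
  have hhigh : ∀ v, e₁ * N ≤ v → v ≤ N → cr q v ≤ (1 + δ / 2) * (v / ℓ) := by
    intro v h1 h2
    have h3 := (abs_le.mp (hN v h1 (by linarith))).2
    linarith
  refine ⟨hR.pts.real_Dom_le ha hb hA hAN hL, ?_⟩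
  have h1 := hR.pts.vol_Dom_ge hR.pos haL hbL hM2 hA (fun v hv h => hlow v h (hAN hv).2)
    (fun v hv w h h' => by
      have h2 := hhigh w h (h'.trans (hAN hv).2)
      have h3 : 0 < w / ℓ := div_pos (by nlinarith) hL
      have e : b / ℓ * w = b * (w / ℓ) := by ring
      rw [e]
      nlinarith)
  have hempty : A ∩ Iio 0 = ∅ := by
    ext v
    simp only [mem_inter_iff, mem_Iio, mem_empty_iff_false, iff_false, not_and, not_lt]
    intro hv; exact (hAN hv).1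
  rw [hempty, measure_empty, mul_zero, add_zero] at h1
  have hM0 : 0 ≤ e₁ * N := by linarith
  have hp0 : 0 ≤ cr q (e₁ * N) := Nat.cast_nonneg _
  have h2 := ENNReal.toReal_mono (by
    apply ENNReal.add_ne_top.mpr ⟨ENNReal.mul_ne_top ENNReal.ofReal_ne_top hfinD, ?_⟩
    exact ENNReal.add_ne_top.mpr ⟨ENNReal.mul_ne_top ENNReal.ofReal_ne_top ENNReal.ofReal_ne_top,
      ENNReal.ofReal_ne_top⟩) h1
  rw [ENNReal.toReal_add (ENNReal.mul_ne_top ENNReal.ofReal_ne_top hfinD)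
    (ENNReal.add_ne_top.mpr ⟨ENNReal.mul_ne_top ENNReal.ofReal_ne_top ENNReal.ofReal_ne_top,
      ENNReal.ofReal_ne_top⟩),
    ENNReal.toReal_add (ENNReal.mul_ne_top ENNReal.ofReal_ne_top ENNReal.ofReal_ne_top)
      ENNReal.ofReal_ne_top, ENNReal.toReal_mul, ENNReal.toReal_mul, ENNReal.toReal_mul,
    ENNReal.toReal_ofReal haL.le, ENNReal.toReal_ofReal hbL.le, ENNReal.toReal_ofReal hM0,
    ENNReal.toReal_ofReal hp0] at h2
  change a / ℓ * volume.real A ≤ b / ℓ * volume.real (Dom q (a / ℓ) (b / ℓ) A) +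
    (a / ℓ * (e₁ * N) + cr q (e₁ * N)) at h2
  have h3 := hhigh (e₁ * N) le_rfl (by nlinarith)
  have h4 : cr q (e₁ * N) ≤ 2 * (e₁ * N) / ℓ := by
    refine h3.trans ?_
    have e : 2 * (e₁ * N) / ℓ = 2 * (e₁ * N / ℓ) := by ring
    rw [e]
    exact mul_le_mul_of_nonneg_right (by linarith) (div_nonneg hM0 hL.le)
  have h5 : a * volume.real A ≤ b * volume.real (Dom q (a / ℓ) (b / ℓ) A) + (a * (e₁ * N) +
      2 * (e₁ * N)) := by
    have h6 : a / ℓ * volume.real A ≤ b / ℓ * volume.real (Dom q (a / ℓ) (b / ℓ) A) +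
      (a / ℓ * (e₁ * N) + 2 * (e₁ * N) / ℓ) := by linarith
    have e1 : a / ℓ * volume.real A = (a * volume.real A) / ℓ := by ring
    have e2 : b / ℓ * volume.real (Dom q (a / ℓ) (b / ℓ) A) +
      (a / ℓ * (e₁ * N) + 2 * (e₁ * N) / ℓ) = (b * volume.real (Dom q (a / ℓ) (b / ℓ) A) +
        (a * (e₁ * N) + 2 * (e₁ * N))) / ℓ := by ring
    rw [e1, e2, div_le_div_iff_of_pos_right hL] at h6
    exact h6
  have h6 : a / b * volume.real A ≤ volume.real (Dom q (a / ℓ) (b / ℓ) A) +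
      (a * (e₁ * N) + 2 * (e₁ * N)) := by
    rw [div_mul_eq_mul_div, div_le_iff₀ hb]
    have h7 : 0 ≤ a * (e₁ * N) + 2 * (e₁ * N) := by positivity
    have h8 : (a * (e₁ * N) + 2 * (e₁ * N)) * 1 ≤ (a * (e₁ * N) + 2 * (e₁ * N)) * b :=
      mul_le_mul_of_nonneg_left hb1.le h7
    linarith
  nlinarith

/-- **The law of the zigzags**, uniformly in the list of the slopes. -/
theorem law_u (hR : Reg q L) {δ : ℝ} (hδ0 : 0 < δ) (hδ1 : δ ≤ 1) {ε : ℝ} (hε : 0 < ε) :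
    ∀ᶠ N : ℝ in atTop, ∀ cs : List (ℝ × ℝ), (∀ c ∈ cs, 1 + δ ≤ c.1 ∧ 0 < c.2 ∧ c.2 ≤ 1 - δ) →
      ∀ A : Set ℝ, A ⊆ Icc 0 N → MeasurableSet A →
      MeasurableSet (DomL q (L N) cs A) ∧ DomL q (L N) cs A ⊆ Icc 0 N ∧
      volume.real (DomL q (L N) cs A) ≤ (cs.map fun c => c.2 / c.1).prod * volume.real A ∧
      (cs.map fun c => c.2 / c.1).prod * volume.real A - ε * N ≤
        volume.real (DomL q (L N) cs A) := by
  filter_upwards [one_step_u hR hδ0 hδ1 (ε := ε * δ) (by positivity), hR.lpos,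
    eventually_gt_atTop 0] with N h2 hL hN0 cs
  induction cs with
  | nil =>
    intro _ A hAN hA
    rw [DomL_nil _ N hAN]
    simp only [List.map_nil, List.prod_nil, one_mul]
    exact ⟨hA, hAN, le_rfl, by nlinarith⟩
  | cons c cs ih =>
    intro hcs A hAN hA
    obtain ⟨hc2, hc0, hc1⟩ := hcs c (List.mem_cons_self)
    have hr0 : 0 ≤ c.2 / c.1 := div_nonneg hc0.le (by linarith)
    have hr1 : c.2 / c.1 ≤ 1 - δ := by
      rw [div_le_iff₀ (by linarith)]; nlinarith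
    obtain ⟨h3, h4, h5, h6⟩ := ih (fun d hd => hcs d (List.mem_cons_of_mem _ hd)) A hAN hA
    obtain ⟨h7, h8⟩ := h2 c.2 c.1 hc0 hc1 hc2 _ h4 h3
    rw [DomL_cons]
    refine ⟨hR.pts.meas_Dom (by positivity) (div_pos (by linarith) hL) h3, Dom_subset h4, ?_, ?_⟩
    · rw [List.map_cons, List.prod_cons, mul_assoc]
      exact h7.trans (mul_le_mul_of_nonneg_left h5 hr0)
    · rw [List.map_cons, List.prod_cons, mul_assoc]
      refine le_trans ?_ h8
      have h9 := mul_le_mul_of_nonneg_left h6 hr0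
      have h10 : c.2 / c.1 * (ε * N) ≤ (1 - δ) * (ε * N) :=
        mul_le_mul_of_nonneg_right hr1 (by positivity)
      nlinarith

/-! ## The first passage points -/

/-- the heights of the vertical segments at the points of `I` -/
def HI (I : Finset ℕ) : Set ℝ := ⋃ i ∈ I, Ioc (i : ℝ) (i + 1)

theorem mem_HI {I : Finset ℕ} {y : ℝ} : y ∈ HI I ↔ ∃ i ∈ I, (i : ℝ) < y ∧ y ≤ i + 1 := by
  simp only [HI, mem_iUnion, mem_Ioc, exists_prop]

theorem meas_HI (I : Finset ℕ) : MeasurableSet (HI I) :=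
  Finset.measurableSet_biUnion I fun _ _ => measurableSet_Ioc

theorem vol_HI (I : Finset ℕ) : volume (HI I) = I.card := by
  unfold HI
  rw [measure_biUnion_finset]
  · simp
  · intro i _ j _ hij
    rw [Function.onFun, Set.disjoint_left]
    rintro y ⟨h1, h2⟩ ⟨h3, h4⟩
    exact hij (cast_between h1 h2 h3 h4)
  · intro i _; exact measurableSet_Ioc

/-- `s` is the first time after `x` at which the count reaches the line of slope `b` from `x` -/
def Rise (F : ℝ → ℝ) (b x s : ℝ) : Prop := IsLeast {s | x < s ∧ b * (s - x) ≤ F s - F x} s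

/-- the starting points from which the first passage over the slope `b` is at a point of `I` -/
def DomI (q : ℕ → ℝ) (b : ℝ) (I : Finset ℕ) : Set ℝ := {x | 0 ≤ x ∧ ∃ i ∈ I, Rise (cr q) b x (q i)}

theorem domI_eq (hq : Pts q) {b : ℝ} (hb : 0 < b) (I : Finset ℕ) :
    DomI q b I = {v | v ∈ Ici (0 : ℝ) ∧ ∃ y ∈ HI I, RB q b v y} := by
  ext x
  simp only [DomI, mem_ofPred_eq, mem_Ici, Rise, cr]
  constructor
  · rintro ⟨h0, i, hi, h⟩
    obtain ⟨i', h1, h2⟩ := (hq.first_high hb x (q i)).mp h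
    have hii : i = i' := hq.mono.injective h2
    subst hii
    exact ⟨h0, _, mem_HI.mpr ⟨i, hi, h1.y_gt hq hb, h1.2.2.1⟩, _, i, h1, rfl⟩
  · rintro ⟨h0, y, hy, j, i', h1, h2⟩
    obtain ⟨i, hi, h3, h4⟩ := mem_HI.mp hy
    have hii : i = i' := cast_between h3 h4 (h2 ▸ h1.y_gt hq hb) (h2 ▸ h1.2.2.1)
    subst hii
    have hj : cnt q x = j := h1.1
    exact ⟨h0, i, hi, (hq.first_high hb x (q i)).mpr ⟨i, by rw [hj]; exact h1, rfl⟩⟩

theorem meas_DomI (hq : Pts q) {b : ℝ} (hb : 0 < b) (I : Finset ℕ) :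
    MeasurableSet (DomI q b I) := by
  rw [domI_eq hq hb]
  exact hq.meas_dom_B b measurableSet_Ici (meas_HI I)

theorem DomI_subset {b N : ℝ} {I : Finset ℕ} (hI : ∀ i ∈ I, q i ≤ N) : DomI q b I ⊆ Icc 0 N := by
  rintro x ⟨h0, i, hi, h⟩
  exact ⟨h0, h.1.1.le.trans (hI i hi)⟩

theorem vol_DomI_le (hq : Pts q) {b : ℝ} (hb : 0 < b) (I : Finset ℕ) :
    ENNReal.ofReal b * volume (DomI q b I) ≤ I.card := by
  rw [domI_eq hq hb, ← hq.vol_B hb measurableSet_Ici (meas_HI I), ← vol_HI]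
  exact measure_mono fun y hy => hy.1

theorem vol_DomI_ge (hq : Pts q) (hq0 : 0 < q 0) {b M : ℝ} (hb : 0 < b) (I : Finset ℕ)
    (h2 : ∀ i ∈ I, M ≤ q i → cr q (q i) ≤ b * q i) :
    (I.card : ENNReal) ≤ ENNReal.ofReal b * volume (DomI q b I) + ENNReal.ofReal (cr q M) := by
  rw [domI_eq hq hb, ← hq.vol_B hb measurableSet_Ici (meas_HI I), ← vol_HI]
  have e : ENNReal.ofReal (cr q M) = volume (Ioc (0 : ℝ) (cr q M)) := by
    rw [Real.volume_Ioc, sub_zero]
  rw [e]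
  refine (measure_mono ?_).trans (measure_union_le _ _)
  intro y hy
  obtain ⟨i, hi, h4, h5⟩ := mem_HI.mp hy
  by_cases hqM : M ≤ q i
  · left
    have h7 := h2 i hi hqM
    rw [cr, hq.cnt_q] at h7
    push_cast at h7
    obtain ⟨w, hw0, hw⟩ := hq.range_B hq0 hb h4 h5 (h5.trans h7)
    exact ⟨hy, w, hw0, hw⟩
  · right
    push Not at hqM
    refine ⟨(Nat.cast_nonneg i).trans_lt h4, h5.trans ?_⟩
    rw [cr]
    have := hq.cnt_mono hqM.le
    rw [hq.cnt_q] at this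
    exact_mod_cast this

/-- One rise, uniformly in the slope and in the set of end points. -/
theorem rise_u (hR : Reg q L) {δ : ℝ} (hδ0 : 0 < δ) (hδ1 : δ ≤ 1) {ε : ℝ} (hε : 0 < ε) :
    ∀ᶠ N : ℝ in atTop, ∀ b : ℝ, 1 + δ ≤ b → ∀ I : Finset ℕ, (∀ i ∈ I, q i ≤ N) →
      volume.real (DomI q (b / L N) I) ≤ L N / b * I.card ∧
      L N / b * I.card - ε * N ≤ volume.real (DomI q (b / L N) I) := by
  set e₁ : ℝ := min (ε / 2) 1 with he₁
  have he₁0 : 0 < e₁ := by rw [he₁]; positivity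
  have he₁ε : 2 * e₁ ≤ ε := by
    have := min_le_left (ε / 2) 1
    rw [← he₁] at this; linarith
  have he₁1 : e₁ ≤ 1 := min_le_right _ _
  filter_upwards [hR.win e₁ 1 (δ / 2) he₁0 (by positivity), hR.lpos, eventually_gt_atTop 0]
    with N hN hL hN0 b hbδ I hI
  have hb : 0 < b := by linarith
  set ℓ := L N with hLdef
  have hbL : 0 < b / ℓ := by positivity
  have hM0 : 0 < e₁ * N := by positivity
  have hfinD := real_ne_top (DomI_subset (q := q) (b := b / ℓ) hI)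
  have hhigh : ∀ v, e₁ * N ≤ v → v ≤ N → cr q v ≤ (1 + δ / 2) * (v / ℓ) := by
    intro v h1 h2
    have h3 := (abs_le.mp (hN v h1 (by linarith))).2
    linarith
  constructor
  · have h1 := ENNReal.toReal_mono (ENNReal.natCast_ne_top _) (vol_DomI_le hR.pts hbL I)
    rw [ENNReal.toReal_mul, ENNReal.toReal_ofReal hbL.le, ENNReal.toReal_natCast] at h1
    change b / ℓ * volume.real (DomI q (b / ℓ) I) ≤ I.card at h1
    rw [div_mul_eq_mul_div, div_le_iff₀ hL] at h1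
    rw [div_mul_eq_mul_div, le_div_iff₀ hb]
    linarith
  · have h1 := vol_DomI_ge hR.pts hR.pos (M := e₁ * N) hbL I (fun i hi h => by
      have h2 := hhigh (q i) h (hI i hi)
      have h3 : 0 < q i / ℓ := div_pos (by linarith) hL
      have e : b / ℓ * q i = b * (q i / ℓ) := by ring
      rw [e]
      nlinarith)
    have h2 := ENNReal.toReal_mono (ENNReal.add_ne_top.mpr
      ⟨ENNReal.mul_ne_top ENNReal.ofReal_ne_top hfinD, ENNReal.ofReal_ne_top⟩) h1
    have hp0 : 0 ≤ cr q (e₁ * N) := Nat.cast_nonneg _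
    rw [ENNReal.toReal_add (ENNReal.mul_ne_top ENNReal.ofReal_ne_top hfinD) ENNReal.ofReal_ne_top,
      ENNReal.toReal_mul, ENNReal.toReal_natCast, ENNReal.toReal_ofReal hbL.le,
      ENNReal.toReal_ofReal hp0] at h2
    change (I.card : ℝ) ≤ b / ℓ * volume.real (DomI q (b / ℓ) I) + cr q (e₁ * N) at h2
    have h3 := hhigh (e₁ * N) le_rfl (by nlinarith)
    have h4 : ℓ * cr q (e₁ * N) ≤ 2 * (e₁ * N) := by
      have h5 : ℓ * cr q (e₁ * N) ≤ ℓ * ((1 + δ / 2) * (e₁ * N / ℓ)) :=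
        mul_le_mul_of_nonneg_left h3 hL.le
      have e : ℓ * ((1 + δ / 2) * (e₁ * N / ℓ)) = (1 + δ / 2) * (e₁ * N) := by
        field_simp
      rw [e] at h5
      nlinarith
    have h5 : ℓ * (I.card : ℝ) ≤ b * volume.real (DomI q (b / ℓ) I) + 2 * (e₁ * N) := by
      have h6 := mul_le_mul_of_nonneg_left h2 hL.le
      have e : ℓ * (b / ℓ * volume.real (DomI q (b / ℓ) I) + cr q (e₁ * N)) =
          b * volume.real (DomI q (b / ℓ) I) + ℓ * cr q (e₁ * N) := by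
        field_simp
      rw [e] at h6
      linarith
    have h6 : ℓ / b * I.card ≤ volume.real (DomI q (b / ℓ) I) + 2 * (e₁ * N) := by
      rw [div_mul_eq_mul_div, div_le_iff₀ hb]
      have h7 : 2 * (e₁ * N) * 1 ≤ 2 * (e₁ * N) * b :=
        mul_le_mul_of_nonneg_left (by linarith) (by positivity)
      linarith
    nlinarith

theorem Path_le {F : ℝ → ℝ} {l : ℝ} {cs : List (ℝ × ℝ)} : ∀ {x t : ℝ}, Path F l cs x t → x ≤ t := by
  induction cs with
  | nil => intro x t h; exact le_of_eq h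
  | cons c cs ih =>
    rintro x t ⟨u, h1, h2⟩
    exact h1.lt.le.trans (ih h2)

/-- **The law of the first passage points after any zigzags.** -/
theorem law_rise_u (hR : Reg q L) {δ : ℝ} (hδ0 : 0 < δ) (hδ1 : δ ≤ 1) {ε : ℝ} (hε : 0 < ε) :
    ∀ᶠ N : ℝ in atTop, ∀ cs : List (ℝ × ℝ), (∀ c ∈ cs, 1 + δ ≤ c.1 ∧ 0 < c.2 ∧ c.2 ≤ 1 - δ) →
      ∀ b : ℝ, 1 + δ ≤ b → ∀ I : Finset ℕ, (∀ i ∈ I, q i ≤ N) →
      volume.real {x | 0 ≤ x ∧ ∃ t, Path (cr q) (L N) cs x t ∧ ∃ i ∈ I,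
        Rise (cr q) (b / L N) t (q i)} ≤
        (cs.map fun c => c.2 / c.1).prod * (L N / b * I.card) ∧
      (cs.map fun c => c.2 / c.1).prod * (L N / b * I.card) - ε * N ≤
        volume.real {x | 0 ≤ x ∧ ∃ t, Path (cr q) (L N) cs x t ∧ ∃ i ∈ I,
          Rise (cr q) (b / L N) t (q i)} := by
  filter_upwards [law_u hR hδ0 hδ1 (ε := ε / 2) (by positivity),
    rise_u hR hδ0 hδ1 (ε := ε / 2) (by positivity), hR.lpos, eventually_gt_atTop 0]
    with N h1 h2 hL hN0 cs hcs b hb I hI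
  have hb0 : 0 < b := by linarith
  have e : {x | 0 ≤ x ∧ ∃ t, Path (cr q) (L N) cs x t ∧ ∃ i ∈ I,
      Rise (cr q) (b / L N) t (q i)} = DomL q (L N) cs (DomI q (b / L N) I) := by
    ext x
    simp only [DomL, DomI, mem_ofPred_eq]
    constructor
    · rintro ⟨h0, t, h3, h4⟩
      exact ⟨h0, t, ⟨h0.trans (Path_le h3), h4⟩, h3⟩
    · rintro ⟨h0, t, ⟨h3, h4⟩, h5⟩
      exact ⟨h0, t, h5, h4⟩
  rw [e]
  obtain ⟨-, -, h3, h4⟩ := h1 cs hcs _ (DomI_subset hI)
    (meas_DomI hR.pts (b := b / L N) (by positivity) I)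
  obtain ⟨h5, h6⟩ := h2 b hb I hI
  have hρ : 0 ≤ (cs.map fun c => c.2 / c.1).prod ∧ (cs.map fun c => c.2 / c.1).prod ≤ 1 := by
    clear h1 e h3 h4
    induction cs with
    | nil => simp
    | cons c cs ih =>
      obtain ⟨hc2, hc0, hc1⟩ := hcs c (List.mem_cons_self)
      obtain ⟨h7, h8⟩ := ih (fun d hd => hcs d (List.mem_cons_of_mem _ hd))
      have hr0 : 0 ≤ c.2 / c.1 := div_nonneg hc0.le (by linarith)
      have hr1 : c.2 / c.1 ≤ 1 := by
        rw [div_le_iff₀ (by linarith)]; nlinarith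
      rw [List.map_cons, List.prod_cons]
      exact ⟨mul_nonneg hr0 h7, mul_le_one₀ hr1 h7 h8⟩
  refine ⟨h3.trans (mul_le_mul_of_nonneg_left h5 hρ.1), ?_⟩
  refine le_trans ?_ h4
  have h7 := mul_le_mul_of_nonneg_left h6 hρ.1
  have h8 : (cs.map fun c => c.2 / c.1).prod * (ε / 2 * N) ≤ 1 * (ε / 2 * N) :=
    mul_le_mul_of_nonneg_right hρ.2 (by positivity)
  nlinarith

end Pool.Agent.N744.Zig
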